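import Pool.Agent.H.MP_ef0505_an.C

set_option autoImplicit false
open Set MeasureTheory Metric

namespace Pool.Agent.Results.MP_ef0505_an.No

theorem result : ∃ (m n : ℕ) (D : Finset (Fin m × Fin n)) (F : Set (EuclideanSpace ℝ (Fin 2))),
    2 ≤ m ∧ m < n ∧ D.Nonempty ∧ D ≠ Finset.univ ∧ IsCompact F ∧ F.Nonempty ∧
    F = ⋃ d ∈ D, (fun z : EuclideanSpace ℝ (Fin 2) =>
      !₂[(z 0 + (d.1 : ℕ)) / m, (z 1 + (d.2 : ℕ)) / n]) '' F ∧
    ∃ δ > 0, ∀ (N : ℕ) (a b : Fin N → EuclideanSpace ℝ (Fin 2)) (ε : Fin N → ℝ),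
      (∀ i, 0 < ε i) → F ⊆ ⋃ i, thickening (ε i) (segment ℝ (a i) (b i)) →
      δ ≤ ∑ i, ε i ∧ ((∀ i, 1 ≤ dist (a i) (b i)) →
        ENNReal.ofReal δ ≤ ∑ i, volume (thickening (ε i) (segment ℝ (a i) (b i)))) := by
  open Pool.Agent.H.MP_ef0505_an in
  obtain ⟨F, hc, h0, h1, hF⟩ := exF
  refine ⟨4, 16, D, F, by norm_num, by norm_num, ⟨(0, 0), by decide⟩, by decide, hc, ⟨0, h0⟩, hF,
    1 / (16 * Real.exp 2048), by positivity, fun N a b ε hε h => ⟨widths h0 h1 hF N a b ε hε h, fun hl => ?_⟩⟩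
  refine (ENNReal.ofReal_le_ofReal (widths h0 h1 hF N a b ε hε h)).trans ?_
  rw [ENNReal.ofReal_sum_of_nonneg fun i _ => (hε i).le]
  exact Finset.sum_le_sum fun i _ => area _ _ (hl i)

end Pool.Agent.Results.MP_ef0505_an.No
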